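import Pool.Agent.H560R2.Mat7
import Pool.Agent.H630VC.Model

/-! Monotone real circuits: conversion, and the average-case bound for deleted edges. -/

set_option autoImplicit false

open Finset

namespace Pool.Agent.Q226.LPF

open Pool.Agent.H560R2

variable {n : ℕ}

open Classical in
/-- the inputs: membership bits of an element, and constants -/
noncomputable def setInputs (α : Type) : Set (Set α → ℝ) :=
  {h | (∃ e, h = fun Z => if e ∈ Z then 1 else 0) ∨ ∃ c : ℝ, h = fun _ => c}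

lemma setInputs_leaf {α : Type} [DecidableEq α] :
    ∀ b ∈ setInputs α, ∃ T : Finset α, T.card ≤ 1 ∧ LeafOnR T b := by
  classical
  rintro b (⟨e, rfl⟩ | ⟨c, rfl⟩)
  · refine ⟨{e}, by simp, fun x x' h => ?_⟩
    dsimp only
    by_cases h1 : e ∈ x
    · rw [if_pos h1, if_pos (h e (by simp) h1)]
    · rw [if_neg h1]
      split_ifs <;> norm_num
  · exact ⟨∅, by simp, fun _ _ _ => le_rfl⟩

/-- conversion of the circuits -/
lemma toRProg {I : Type} {inp : Set (I → ℝ)} {l : List (I → ℝ)} (h : H630VC.Prog inp l) :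
    ∃ L : List (I → ℝ), RProg inp L ∧ L.length ≤ l.length ∧ ∀ f ∈ l, f ∈ inp ∨ f ∈ L := by
  induction h with
  | nil => exact ⟨[], RProg.nil, le_rfl, by simp⟩
  | input _ hf ih =>
    obtain ⟨L, h1, h2, h3⟩ := ih
    refine ⟨L, h1, h2.trans (by simp), fun f' hf' => ?_⟩
    rcases List.mem_cons.mp hf' with rfl | hf'
    · exact Or.inl hf
    · exact h3 f' hf'
  | @gate l φ f g _ hφ hf hg ih =>
    obtain ⟨L, h1, h2, h3⟩ := ih
    have e : (fun x => φ (f x) (g x)) =
        fun x => (fun u : Fin 2 → ℝ => φ (u 0) (u 1)) (fun j => (![f, g] j) x) := by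
      funext x
      simp
    refine ⟨(fun x => φ (f x) (g x)) :: L, ?_, by simpa using h2, fun f' hf' => ?_⟩
    · rw [e]
      refine RProg.gate 2 le_rfl (fun u : Fin 2 → ℝ => φ (u 0) (u 1)) ?_ ![f, g] h1 (fun j => ?_)
      · intro u v huv
        exact hφ _ _ _ _ (huv 0) (huv 1)
      · fin_cases j
        · exact h3 f hf
        · exact h3 g hg
    · rcases List.mem_cons.mp hf' with rfl | hf'
      · exact Or.inr List.mem_cons_self
      · exact (h3 f' hf').imp id (List.mem_cons_of_mem _)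

/-- strict thresholds on finite sets -/
lemma exists_threshold {β : Type} [Finite β] (f : β → ℝ) (t : ℝ) :
    ∃ θ : ℝ, ∀ z, θ ≤ f z ↔ t < f z := by
  classical
  have _ : Fintype β := Fintype.ofFinite β
  by_cases h : ∃ z, t < f z
  · obtain ⟨z, hz⟩ := h
    obtain ⟨z0, hz0, hmin⟩ := Finset.exists_min_image (univ.filter fun z => t < f z) f
      ⟨z, by simp [hz]⟩
    refine ⟨f z0, fun y => ⟨fun hy => ?_, fun hy => hmin y (by simp [hy])⟩⟩
    exact lt_of_lt_of_le (Finset.mem_filter.mp hz0).2 hy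
  · push Not at h
    by_cases hβ : Nonempty β
    · obtain ⟨z0, -, hmax⟩ := Finset.exists_max_image (univ : Finset β) f univ_nonempty
      refine ⟨f z0 + 1, fun y => ⟨fun hy => ?_, fun hy => absurd (h y) (not_le.mpr hy)⟩⟩
      have := hmax y (mem_univ y)
      linarith
    · exact ⟨0, fun y => (hβ ⟨y⟩).elim⟩

open Classical in
/-- Average-case bounds for monotone real circuits, for the present and for the deleted edges. -/
theorem match_both (w lam c : ℕ) (hw : 1 ≤ w) (hc : 1 ≤ c) (hn : n < 2 ^ lam)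
    (hbig : 2 ^ 59 * (lam + 1) ^ 8 * w ^ 8 * c ≤ n) :
    ∃ (Pt : Type) (_ : Fintype Pt) (_ : Nonempty Pt) (W : Pt → Finset (Fin n ⊕ Fin n)),
      (∀ p, (W p).card < n) ∧
      ∀ (l : List (Set (Fin n × Fin n) → ℝ)), H630VC.Prog (setInputs (Fin n × Fin n)) l →
        8 * c * l.length ≤ 2 ^ w → ∀ f ∈ l, ∀ θ : ℝ,
        ((univ.filter (fun σ : Equiv.Perm (Fin n) => θ ≤ f {e | σ e.1 = e.2})).card *
            Fintype.card Pt * (2 * c) : ℝ) ≤
          (univ.filter (fun p : Pt =>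
            θ ≤ f {e | Sum.inl e.1 ∈ W p ∨ Sum.inr e.2 ∈ W p})).card *
            Fintype.card (Equiv.Perm (Fin n)) * (2 * c) +
          Fintype.card Pt * Fintype.card (Equiv.Perm (Fin n)) ∧
        ((univ.filter (fun p : Pt =>
            θ ≤ f {e | Sum.inl e.1 ∉ W p ∧ Sum.inr e.2 ∉ W p})).card *
            Fintype.card (Equiv.Perm (Fin n)) * (2 * c) : ℝ) ≤
          (univ.filter (fun σ : Equiv.Perm (Fin n) => θ ≤ f {e | σ e.1 ≠ e.2})).card *
            Fintype.card Pt * (2 * c) +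
          Fintype.card Pt * Fintype.card (Equiv.Perm (Fin n)) := by
  obtain ⟨Pt, i1, i2, W, hW, H⟩ := match_avg (n := n) w lam c hw hc hn hbig
  refine ⟨Pt, i1, i2, W, hW, ?_⟩
  intro l hl hlen f hf θ
  obtain ⟨L, h1, h2, h3⟩ := toRProg hl
  have hL : 8 * c * L.length ≤ 2 ^ w := (Nat.mul_le_mul_left _ h2).trans hlen
  refine ⟨?_, ?_⟩
  · have := H (setInputs _) setInputs_leaf L h1 f (h3 f hf) θ hL
    exact_mod_cast this
  · obtain ⟨θ', hθ'⟩ := exists_threshold (fun Z : Set (Fin n × Fin n) => - f Zᶜ) (-θ)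
    have h := H {g | ∃ b ∈ setInputs (Fin n × Fin n), g = fun Z => - b Zᶜ} (by
        rintro _ ⟨b, hb, rfl⟩
        obtain ⟨T, hT, h⟩ := setInputs_leaf b hb
        exact ⟨T, hT, h.dual⟩) _ h1.dual (fun Z => - f Zᶜ) (by
        rcases h3 f hf with h | h
        · exact Or.inl ⟨f, h, rfl⟩
        · exact Or.inr (List.mem_map.mpr ⟨f, h, rfl⟩)) θ' (by
        rw [List.length_map]
        exact hL)
    have hc' : ∀ σ : Equiv.Perm (Fin n), ({e : Fin n × Fin n | σ e.1 = e.2}ᶜ : Set _) =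
        {e | σ e.1 ≠ e.2} := by
      intro σ
      ext e
      simp
    have hc2 : ∀ W : Finset (Fin n ⊕ Fin n),
        ({e : Fin n × Fin n | Sum.inl e.1 ∈ W ∨ Sum.inr e.2 ∈ W}ᶜ : Set _) =
        {e | Sum.inl e.1 ∉ W ∧ Sum.inr e.2 ∉ W} := by
      intro W
      ext e
      simp
    have hval : ∀ Z : Set (Fin n × Fin n), (θ' ≤ - f Zᶜ) ↔ ¬ θ ≤ f Zᶜ := by
      intro Z
      rw [hθ' Z, not_le]
      constructor
      · intro h; linarith
      · intro h; linarith
    simp only [hval] at h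
    simp only [hc', hc2] at h
    have s1 := Finset.card_filter_add_card_filter_not (s := (univ : Finset (Equiv.Perm (Fin n))))
      (fun σ => θ ≤ f {e | σ e.1 ≠ e.2})
    have s2 := Finset.card_filter_add_card_filter_not (s := (univ : Finset Pt))
      (fun p => θ ≤ f {e | Sum.inl e.1 ∉ W p ∧ Sum.inr e.2 ∉ W p})
    rw [Finset.card_univ] at s1 s2
    have s1' : (((univ.filter (fun σ : Equiv.Perm (Fin n) => θ ≤ f {e | σ e.1 ≠ e.2})).card +
      (univ.filter (fun σ : Equiv.Perm (Fin n) => ¬ θ ≤ f {e | σ e.1 ≠ e.2})).card : ℕ) : ℝ) =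
      Fintype.card (Equiv.Perm (Fin n)) := by exact_mod_cast s1
    have s2' : (((univ.filter (fun p : Pt =>
        θ ≤ f {e | Sum.inl e.1 ∉ W p ∧ Sum.inr e.2 ∉ W p})).card +
      (univ.filter (fun p : Pt =>
        ¬ θ ≤ f {e | Sum.inl e.1 ∉ W p ∧ Sum.inr e.2 ∉ W p})).card : ℕ) : ℝ) =
      Fintype.card Pt := by exact_mod_cast s2
    have h' : (((univ.filter (fun σ : Equiv.Perm (Fin n) => ¬ θ ≤ f {e | σ e.1 ≠ e.2})).card *
              Fintype.card Pt * (2 * c) : ℕ) : ℝ) ≤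
            (((univ.filter (fun p : Pt =>
              ¬ θ ≤ f {e | Sum.inl e.1 ∉ W p ∧ Sum.inr e.2 ∉ W p})).card *
              Fintype.card (Equiv.Perm (Fin n)) * (2 * c) +
            Fintype.card Pt * Fintype.card (Equiv.Perm (Fin n)) : ℕ) : ℝ) := by
      exact_mod_cast h
    push_cast at h' s1' s2'
    have e1 : (((univ.filter (fun σ : Equiv.Perm (Fin n) => ¬ θ ≤ f {e | σ e.1 ≠ e.2})).card : ℕ)
        : ℝ) = Fintype.card (Equiv.Perm (Fin n)) -
        ((univ.filter (fun σ : Equiv.Perm (Fin n) => θ ≤ f {e | σ e.1 ≠ e.2})).card : ℝ) := by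
      linarith
    have e2 : (((univ.filter (fun p : Pt =>
              ¬ θ ≤ f {e | Sum.inl e.1 ∉ W p ∧ Sum.inr e.2 ∉ W p})).card : ℕ) : ℝ) =
        Fintype.card Pt - ((univ.filter (fun p : Pt =>
              θ ≤ f {e | Sum.inl e.1 ∉ W p ∧ Sum.inr e.2 ∉ W p})).card : ℝ) := by
      linarith
    rw [e1, e2] at h'
    nlinarith [h']

end Pool.Agent.Q226.LPF
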