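import Pool.Agent.Q226.LPF.Main

/-! Linear feasibility and circuits with unreliable negations: the parameters. -/

set_option autoImplicit false

open Finset Filter

namespace Pool.Agent.Q226.LPF

open Pool.Agent.Q226.FLT

lemma ev_pow {s t : ℝ} (hs : 0 < s) : ∀ᶠ n : ℕ in atTop, t ≤ (n : ℝ) ^ s :=
  ((tendsto_rpow_atTop hs).comp tendsto_natCast_atTop_atTop).eventually_ge_atTop t

lemma ev_log {s t : ℝ} (hs : 0 < s) (ht : 0 < t) :
    ∀ᶠ n : ℕ in atTop, Real.log n ^ (8 : ℕ) ≤ t * (n : ℝ) ^ s := by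
  have h := (isLittleO_log_rpow_rpow_atTop (8 : ℝ) hs).comp_tendsto tendsto_natCast_atTop_atTop
  filter_upwards [h.bound ht, eventually_ge_atTop 1] with n hn h1
  have h2 : 0 ≤ Real.log n := Real.log_nonneg (by exact_mod_cast h1)
  simp only [Function.comp_apply] at hn
  rw [Real.norm_of_nonneg (Real.rpow_nonneg h2 _), Real.norm_of_nonneg (by positivity)] at hn
  rw [← Real.rpow_natCast]
  exact_mod_cast hn

lemma ev_log1 {s t : ℝ} (hs : 0 < s) (ht : 0 < t) :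
    ∀ᶠ n : ℕ in atTop, Real.log n ≤ t * (n : ℝ) ^ s := by
  have h := (isLittleO_log_rpow_atTop hs).comp_tendsto tendsto_natCast_atTop_atTop
  filter_upwards [h.bound ht, eventually_ge_atTop 1] with n hn h1
  have h2 : 0 ≤ Real.log n := Real.log_nonneg (by exact_mod_cast h1)
  simp only [Function.comp_apply] at hn
  rwa [Real.norm_of_nonneg h2, Real.norm_of_nonneg (by positivity)] at hn

/-- the parameters -/
lemma params (ε : ℝ) (hε : 0 < ε) (hε1 : ε < 1 / 8) : ∃ n₀ : ℕ, ∀ n : ℕ, n₀ ≤ n → 6 ≤ n ∧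
    ∃ w lam c : ℕ, 1 ≤ w ∧ 1 ≤ c ∧ n < 2 ^ lam ∧ 2 ^ 59 * (lam + 1) ^ 8 * w ^ 8 * c ≤ n ∧
      1 < (n : ℝ) ^ (-ε) * c ∧ 8 * c * Real.exp ((n : ℝ) ^ (1 / 8 - ε)) ≤ 2 ^ w ∧
      Real.log (2 * (n * n) / ((n : ℝ) ^ (-ε) / 2)) ≤ n := by
  have h1 := ev_log (s := 3 * ε) (t := 1 / 2 ^ 76) (by positivity) (by positivity)
  have h2 := ev_pow (s := 1 / 8 - ε / 2) (t := 100) (by linarith)
  have h3 := ev_pow (s := ε / 2) (t := 8) (by positivity)
  have h4 := ev_log1 (s := 1 / 8 - ε / 2) (t := 1 / 8) (by linarith) (by norm_num)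
  have h5 := ev_log1 (s := 1) (t := 1 / 6) (by norm_num) (by norm_num)
  obtain ⟨n₀, hn₀⟩ := eventually_atTop.mp (h1.and (h2.and (h3.and (h4.and (h5.and
    (eventually_ge_atTop 10))))))
  refine ⟨n₀, fun n hn => ?_⟩
  obtain ⟨h1, h2, h3, h4, h5, h6⟩ := hn₀ n hn
  have hnR : (10 : ℝ) ≤ n := by exact_mod_cast h6
  have hn0 : (0 : ℝ) < n := by linarith
  have hn1 : (1 : ℝ) ≤ n := by linarith
  obtain ⟨a, ha⟩ : ∃ a : ℝ, a = 1 / 8 - ε / 2 := ⟨_, rfl⟩
  rw [← ha] at h2 h4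
  have hl2 : 0.69 ≤ Real.log 2 := by
    have := Real.log_two_gt_d9
    linarith
  have hl2' : Real.log 2 ≤ 0.7 := by
    have := Real.log_two_lt_d9
    linarith
  have hlog1 : 1 ≤ Real.log n := by
    have e1 : Real.log 10 ≤ Real.log n := Real.log_le_log (by norm_num) hnR
    have e2 : (1 : ℝ) ≤ Real.log 10 := by
      rw [Real.le_log_iff_exp_le (by norm_num)]
      have := Real.exp_one_lt_d9
      linarith
    linarith
  have hεn : 1 ≤ (n : ℝ) ^ ε := Real.one_le_rpow hn1 hε.le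
  obtain ⟨w, hw⟩ : ∃ w, w = ⌊(n : ℝ) ^ a⌋₊ := ⟨_, rfl⟩
  obtain ⟨c, hc⟩ : ∃ c, c = ⌊(n : ℝ) ^ ε⌋₊ + 1 := ⟨_, rfl⟩
  have hwle : (w : ℝ) ≤ (n : ℝ) ^ a := by
    rw [hw]
    exact Nat.floor_le (by positivity)
  have hwge : (n : ℝ) ^ a - 1 ≤ w := by
    have := Nat.lt_floor_add_one ((n : ℝ) ^ a)
    rw [hw]
    linarith
  have hc1 : (n : ℝ) ^ ε < c := by
    rw [hc]
    push_cast
    exact Nat.lt_floor_add_one _
  have hc2 : (c : ℝ) ≤ 2 * (n : ℝ) ^ ε := by
    rw [hc]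
    push_cast
    have := Nat.floor_le (show (0 : ℝ) ≤ (n : ℝ) ^ ε by positivity)
    linarith
  refine ⟨by omega, w, Nat.log 2 n + 1, c, ?_, by rw [hc]; omega,
    Nat.lt_pow_succ_log_self (by norm_num) n, ?_, ?_, ?_, ?_⟩
  · have : (1 : ℝ) ≤ w := by linarith
    exact_mod_cast this
  · have e1 : ((Nat.log 2 n : ℕ) : ℝ) * Real.log 2 ≤ Real.log n := by
      have : ((2 : ℝ)) ^ (Nat.log 2 n) ≤ n := by
        exact_mod_cast Nat.pow_log_le_self 2 (show n ≠ 0 by omega)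
      calc ((Nat.log 2 n : ℕ) : ℝ) * Real.log 2 = Real.log ((2 : ℝ) ^ (Nat.log 2 n)) := by
            rw [Real.log_pow]
        _ ≤ _ := Real.log_le_log (by positivity) this
    have e2 : ((Nat.log 2 n : ℕ) : ℝ) ≤ 2 * Real.log n := by
      have h0 : (0 : ℝ) ≤ (Nat.log 2 n : ℕ) := Nat.cast_nonneg _
      nlinarith
    have e3 : (((Nat.log 2 n + 1 + 1 : ℕ)) : ℝ) ^ 8 ≤ (4 * Real.log n) ^ 8 := by
      refine pow_le_pow_left₀ (Nat.cast_nonneg _) ?_ 8
      push_cast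
      linarith
    have e4 : (w : ℝ) ^ 8 ≤ (n : ℝ) ^ (1 - 4 * ε) := by
      calc (w : ℝ) ^ 8 ≤ ((n : ℝ) ^ a) ^ 8 := pow_le_pow_left₀ (Nat.cast_nonneg _) hwle 8
        _ = (n : ℝ) ^ (1 - 4 * ε) := by
            rw [← Real.rpow_natCast, ← Real.rpow_mul hn0.le]
            congr 1
            rw [ha]
            push_cast
            ring
    have e5 : ((2 ^ 59 * (Nat.log 2 n + 1 + 1) ^ 8 * w ^ 8 * c : ℕ) : ℝ) ≤ ((n : ℕ) : ℝ) := by
      push_cast at e3
      rw [Nat.cast_mul, Nat.cast_mul, Nat.cast_mul, Nat.cast_pow, Nat.cast_pow, Nat.cast_pow,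
        Nat.cast_add, Nat.cast_add, Nat.cast_one, Nat.cast_ofNat]
      calc (2 : ℝ) ^ 59 * ((Nat.log 2 n : ℝ) + 1 + 1) ^ 8 * (w : ℝ) ^ 8 * c ≤
            (2 : ℝ) ^ 59 * (4 * Real.log n) ^ 8 * (n : ℝ) ^ (1 - 4 * ε) * (2 * (n : ℝ) ^ ε) := by
            have hl0 : 0 ≤ Real.log n := by linarith
            refine mul_le_mul (mul_le_mul (mul_le_mul_of_nonneg_left e3 (by positivity)) e4
              (by positivity) (by positivity)) hc2 (Nat.cast_nonneg _) (by positivity)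
        _ = 2 ^ 76 * Real.log n ^ 8 * ((n : ℝ) ^ (1 - 4 * ε) * (n : ℝ) ^ ε) := by ring
        _ = 2 ^ 76 * Real.log n ^ 8 * (n : ℝ) ^ (1 - 3 * ε) := by
            rw [← Real.rpow_add hn0]
            congr 2
            ring
        _ ≤ 2 ^ 76 * (1 / 2 ^ 76 * (n : ℝ) ^ (3 * ε)) * (n : ℝ) ^ (1 - 3 * ε) := by
            refine mul_le_mul_of_nonneg_right ?_ (by positivity)
            exact mul_le_mul_of_nonneg_left h1 (by positivity)
        _ = (n : ℝ) ^ (3 * ε) * (n : ℝ) ^ (1 - 3 * ε) := by ring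
        _ = n := by
            rw [← Real.rpow_add hn0]
            have : 3 * ε + (1 - 3 * ε) = 1 := by ring
            rw [this, Real.rpow_one]
    exact_mod_cast e5
  · rw [Real.rpow_neg hn0.le, inv_mul_eq_div, lt_div_iff₀ (by positivity), one_mul]
    exact hc1
  · have e1 : (n : ℝ) ^ (1 / 8 - ε) ≤ 1 / 8 * (n : ℝ) ^ a := by
      have e2 : (n : ℝ) ^ a = (n : ℝ) ^ (1 / 8 - ε) * (n : ℝ) ^ (ε / 2) := by
        rw [← Real.rpow_add hn0]
        congr 1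
        rw [ha]
        ring
      rw [e2]
      have e3 : (0 : ℝ) ≤ (n : ℝ) ^ (1 / 8 - ε) := by positivity
      nlinarith
    have e4 : (8 : ℝ) * c * Real.exp ((n : ℝ) ^ (1 / 8 - ε)) ≤
        Real.exp (4 * Real.log 2 + ε * Real.log n + (n : ℝ) ^ (1 / 8 - ε)) := by
      rw [Real.exp_add]
      refine mul_le_mul_of_nonneg_right ?_ (Real.exp_pos _).le
      rw [Real.exp_add]
      have e5 : Real.exp (4 * Real.log 2) = 16 := by
        have : (4 : ℝ) * Real.log 2 = Real.log 16 := by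
          rw [show (16 : ℝ) = 2 ^ 4 by norm_num, Real.log_pow]
          norm_num
        rw [this, Real.exp_log (by norm_num)]
      have e6 : Real.exp (ε * Real.log n) = (n : ℝ) ^ ε := by
        rw [Real.rpow_def_of_pos hn0, mul_comm]
      rw [e5, e6]
      linarith
    have e7 : (2 : ℝ) ^ w = Real.exp (w * Real.log 2) := by
      rw [Real.exp_nat_mul, Real.exp_log (by norm_num)]
    rw [e7]
    refine e4.trans (Real.exp_le_exp.mpr ?_)
    have e8 : ε * Real.log n ≤ 1 / 8 * (n : ℝ) ^ a := by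
      have : ε * Real.log n ≤ 1 * Real.log n := mul_le_mul_of_nonneg_right (by linarith)
        (by linarith)
      linarith
    have e9 : ((n : ℝ) ^ a - 1) * Real.log 2 ≤ w * Real.log 2 :=
      mul_le_mul_of_nonneg_right hwge (by linarith)
    have e10 : ((n : ℝ) ^ a - 1) * 0.69 ≤ ((n : ℝ) ^ a - 1) * Real.log 2 :=
      mul_le_mul_of_nonneg_left hl2 (by linarith)
    linarith
  · have e1 : 2 * ((n : ℝ) * n) / ((n : ℝ) ^ (-ε) / 2) ≤ 4 * (n : ℝ) ^ 3 := by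
      rw [div_le_iff₀ (by positivity)]
      have e2 : (n : ℝ)⁻¹ ≤ (n : ℝ) ^ (-ε) := by
        rw [← Real.rpow_neg_one]
        exact Real.rpow_le_rpow_of_exponent_le hn1 (by linarith)
      calc 2 * ((n : ℝ) * n) = 4 * (n : ℝ) ^ 3 * ((n : ℝ)⁻¹ / 2) := by
            field_simp
            ring
        _ ≤ _ := mul_le_mul_of_nonneg_left (by linarith) (by positivity)
    have e3 : Real.log (2 * ((n : ℝ) * n) / ((n : ℝ) ^ (-ε) / 2)) ≤ Real.log (4 * (n : ℝ) ^ 3) :=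
      Real.log_le_log (by positivity) e1
    refine e3.trans ?_
    rw [Real.log_mul (by norm_num) (by positivity), Real.log_pow,
      show (4 : ℝ) = 2 ^ 2 by norm_num, Real.log_pow]
    rw [Real.rpow_one] at h5
    push_cast
    linarith

/-- linear feasibility and circuits with unreliable negations -/
theorem final (ε : ℝ) (hε : 0 < ε) (hε1 : ε < 1 / 8) : ∃ n₀ : ℕ, ∀ n D : ℕ, n₀ ≤ n → 1 ≤ D →
    ∃ (m N : ℕ) (A : Matrix (Fin m) (Fin N) ℝ), m ≤ D ^ 2 * n ^ 5 ∧ N = D * n ^ 3 ∧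
      (∀ i j, A i j = -1 ∨ A i j = 0 ∨ A i j = 1) ∧
      Hard bitsLt (fun b => Solvable A b) D ((n : ℝ) ^ (-ε))
        (Real.exp ((n : ℝ) ^ (1 / 8 - ε))) ∧
      Hard bitsGe (fun b => ¬ Solvable A b) D ((n : ℝ) ^ (-ε))
        (Real.exp ((n : ℝ) ^ (1 / 8 - ε))) := by
  obtain ⟨n₀, H⟩ := params ε hε hε1
  refine ⟨n₀, fun n D hn hD => ?_⟩
  obtain ⟨h6, w, lam, c, hw, hc, hlam, hbig, hδc, hS, hlog⟩ := H n hn
  obtain ⟨K, hK⟩ : ∃ K, K = D * n := ⟨_, rfl⟩
  have hn0 : (0 : ℝ) < n := by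
    have : 0 < n := by omega
    exact_mod_cast this
  have hK0 : 0 < K := by rw [hK]; exact Nat.mul_pos hD (by omega)
  have _ : NeZero K := ⟨hK0.ne'⟩
  have hκ : Fintype.card (Col n K) = D * n ^ 3 := by
    simp only [Fintype.card_prod, Fintype.card_fin]
    rw [hK]
    ring
  have hρ : Fintype.card (Row n K) ≤ D ^ 2 * n ^ 5 := by
    simp only [Fintype.card_sum, Fintype.card_prod, Fintype.card_fin]
    have e1 : 1 ≤ D * n ^ 3 := Nat.succ_le_of_lt (Nat.mul_pos hD (by positivity))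
    have e2 : n * n * K ≤ D ^ 2 * n ^ 4 := by
      calc n * n * K = D * n ^ 3 := by rw [hK]; ring
        _ = D * n ^ 3 * 1 := by ring
        _ ≤ D * n ^ 3 * (D * n) := Nat.mul_le_mul_left _ (Nat.mul_pos hD (by omega))
        _ = D ^ 2 * n ^ 4 := by ring
    have e3 : n * n * K * K = D ^ 2 * n ^ 4 := by rw [hK]; ring
    have e4 : n ≤ D ^ 2 * n ^ 4 := by
      calc n = 1 * n := by ring
        _ ≤ (D ^ 2 * n ^ 3) * n := Nat.mul_le_mul_right _
            (Nat.succ_le_of_lt (by positivity))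
        _ = D ^ 2 * n ^ 4 := by ring
    calc n * n * K + (n * n * K * K + (n + n + (n + n))) ≤
          D ^ 2 * n ^ 4 + (D ^ 2 * n ^ 4 + (D ^ 2 * n ^ 4 + D ^ 2 * n ^ 4 +
            (D ^ 2 * n ^ 4 + D ^ 2 * n ^ 4))) := by omega
      _ = D ^ 2 * n ^ 4 * 6 := by ring
      _ ≤ D ^ 2 * n ^ 4 * n := Nat.mul_le_mul_left _ h6
      _ = D ^ 2 * n ^ 5 := by ring
  have hbad : (Fintype.card (Fin n × Fin n) : ℝ) * (1 - 1 / (D : ℝ)) ^ K ≤
      (n : ℝ) ^ (-ε) / 2 / 2 := by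
    refine bad_small hD ?_ (by positivity) ?_
    · rw [Fintype.card_prod, Fintype.card_fin]
      push_cast
      positivity
    · rw [Fintype.card_prod, Fintype.card_fin, hK]
      push_cast
      exact mul_le_mul_of_nonneg_left hlog (Nat.cast_nonneg _)
  refine ⟨_, _, mat (Fintype.equivFin (Row n K)) (Fintype.equivFinOfCardEq hκ), hρ, rfl,
    fun i j => Sys_values n K _ _, ?_, ?_⟩
  · exact core_P _ _ w lam c D hw hc hlam hbig hD (by positivity) hδc hbad hS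
  · exact core_D _ _ w lam c D hw hc hlam hbig hD (by positivity) hδc hbad hS

end Pool.Agent.Q226.LPF
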