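import Pool.Agent.H560R2.Mat5
import Pool.Agent.Q226.FLT.Gen

/-! The linear system with repeated rows and columns. -/

set_option autoImplicit false

open Finset

namespace Pool.Agent.Q226.LPF

open Pool.Agent.H560R2 Pool.Agent.Y630.TF

/-- the columns -/
abbrev Col (n K : ℕ) : Type := (Fin n × Fin n) × Fin K

/-- the rows -/
abbrev Row (n K : ℕ) : Type :=
  Col n K ⊕ ((Col n K × Fin K) ⊕ ((Fin n ⊕ Fin n) ⊕ (Fin n ⊕ Fin n)))

/-- a vertex of an edge -/
def inc {n : ℕ} (s : Fin n ⊕ Fin n) (e : Fin n × Fin n) : Bool :=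
  Sum.elim (fun u => decide (e.1 = u)) (fun v => decide (e.2 = v)) s

/-- the matrix -/
def Sys (n K : ℕ) : Matrix (Row n K) (Col n K) ℝ := fun r c =>
  Sum.elim (fun c' => if c = c' then (1 : ℝ) else 0)
    (Sum.elim (fun q => if c = q.1 then (-1 : ℝ) else 0)
      (Sum.elim (fun s => if inc s c.1 = true then (1 : ℝ) else 0)
        (fun s => if inc s c.1 = true then (-1 : ℝ) else 0))) r

lemma Sys_values (n K : ℕ) (r : Row n K) (c : Col n K) :
    Sys n K r c = -1 ∨ Sys n K r c = 0 ∨ Sys n K r c = 1 := by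
  unfold Sys
  rcases r with q | q | q | q <;> simp only [Sum.elim_inl, Sum.elim_inr] <;> split_ifs <;> simp

/-- feasibility -/
def Fs {n K : ℕ} (b : Row n K → ℝ) : Prop :=
  ∃ y : Col n K → ℝ, ∀ r, b r ≤ ∑ c, Sys n K r c * y c

variable {n K : ℕ}

lemma sum_inl (y : Col n K → ℝ) (u : Fin n) (a : ℝ) :
    ∑ c : Col n K, (if inc (Sum.inl u) c.1 = true then a else 0) * y c =
      a * ∑ v, ∑ k, y ((u, v), k) := by
  rw [Fintype.sum_prod_type, Fintype.sum_prod_type, Finset.sum_eq_single u]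
  · rw [Finset.mul_sum]
    refine Finset.sum_congr rfl fun v _ => ?_
    rw [Finset.mul_sum]
    refine Finset.sum_congr rfl fun k _ => ?_
    simp [inc]
  · intro u' _ hu'
    refine Finset.sum_eq_zero fun v _ => Finset.sum_eq_zero fun k _ => ?_
    simp [inc, hu']
  · simp

lemma sum_inr (y : Col n K → ℝ) (v : Fin n) (a : ℝ) :
    ∑ c : Col n K, (if inc (Sum.inr v) c.1 = true then a else 0) * y c =
      a * ∑ u, ∑ k, y ((u, v), k) := by
  rw [Fintype.sum_prod_type, Fintype.sum_prod_type, Finset.mul_sum]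
  refine Finset.sum_congr rfl fun u _ => ?_
  rw [Finset.sum_eq_single v]
  · rw [Finset.mul_sum]
    refine Finset.sum_congr rfl fun k _ => ?_
    simp [inc]
  · intro v' _ hv'
    refine Finset.sum_eq_zero fun k _ => ?_
    simp [inc, hv']
  · simp

/-- feasible systems give doubly stochastic matrices -/
lemma bf_of_fs {b : Row n K → ℝ} (h0 : ∀ c, 0 ≤ b (Sum.inl c))
    (h1 : ∀ s, 1 ≤ b (Sum.inr (Sum.inr (Sum.inl s))))
    (h2 : ∀ s, -1 ≤ b (Sum.inr (Sum.inr (Sum.inr s)))) (h : Fs b) :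
    BF n {e | ∀ k, ∃ l, 0 ≤ b (Sum.inr (Sum.inl ((e, k), l)))} := by
  classical
  obtain ⟨y, hy⟩ := h
  have p0 : ∀ c, 0 ≤ y c := by
    intro c
    have := hy (Sum.inl c)
    have e1 : ∑ c', Sys n K (Sum.inl c) c' * y c' = y c := by simp [Sys]
    rw [e1] at this
    exact (h0 c).trans this
  have p1 : ∀ c l, b (Sum.inr (Sum.inl (c, l))) ≤ - y c := by
    intro c l
    have := hy (Sum.inr (Sum.inl (c, l)))
    have e1 : ∑ c', Sys n K (Sum.inr (Sum.inl (c, l))) c' * y c' = - y c := by simp [Sys]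
    rwa [e1] at this
  have p2 : ∀ s : Fin n ⊕ Fin n, (1 : ℝ) ≤ ∑ c : Col n K,
      (if inc s c.1 = true then (1 : ℝ) else 0) * y c := fun s =>
    (h1 s).trans (hy (Sum.inr (Sum.inr (Sum.inl s))))
  have p3 : ∀ s : Fin n ⊕ Fin n, (-1 : ℝ) ≤ ∑ c : Col n K,
      (if inc s c.1 = true then (-1 : ℝ) else 0) * y c := fun s =>
    (h2 s).trans (hy (Sum.inr (Sum.inr (Sum.inr s))))
  have q0 : ∀ e, 0 ≤ ∑ k, y (e, k) := fun e => Finset.sum_nonneg fun k _ => p0 _
  have r1 : ∀ u, ∑ v, ∑ k, y ((u, v), k) = 1 := by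
    intro u
    have h5 := p2 (Sum.inl u)
    have h6 := p3 (Sum.inl u)
    rw [sum_inl] at h5 h6
    linarith
  have r2 : ∀ v, ∑ u, ∑ k, y ((u, v), k) = 1 := by
    intro v
    have h5 := p2 (Sum.inr v)
    have h6 := p3 (Sum.inr v)
    rw [sum_inr] at h5 h6
    linarith
  refine ⟨fun e => ∑ k, y (e, k), q0, ?_, ?_, r1, r2⟩
  · intro e he
    refine Finset.sum_nonpos fun k _ => ?_
    obtain ⟨l, hl⟩ := he k
    have := p1 (e, k) l
    linarith
  · rintro ⟨u, v⟩
    have := Finset.single_le_sum (f := fun v => ∑ k, y ((u, v), k)) (fun v _ => q0 (u, v))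
      (Finset.mem_univ v)
    rw [r1 u] at this
    exact this

/-- permutations give solutions -/
lemma fs_of_perm {b : Row n K → ℝ} (σ : Equiv.Perm (Fin n)) (κ : Fin n × Fin n → Fin K)
    (h0 : ∀ c, b (Sum.inl c) ≤ 0) (h1 : ∀ s, b (Sum.inr (Sum.inr (Sum.inl s))) ≤ 1)
    (h2 : ∀ s, b (Sum.inr (Sum.inr (Sum.inr s))) ≤ -1)
    (h3 : ∀ c l, b (Sum.inr (Sum.inl (c, l))) ≤ 0)
    (h4 : ∀ e, σ e.1 = e.2 → ∀ l, b (Sum.inr (Sum.inl ((e, κ e), l))) ≤ -1) : Fs b := by
  classical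
  obtain ⟨y, hy⟩ : ∃ y : Col n K → ℝ, y = fun c => if σ c.1.1 = c.1.2 ∧ c.2 = κ c.1 then 1 else 0 :=
    ⟨_, rfl⟩
  have hk : ∀ e, ∑ k, y (e, k) = if σ e.1 = e.2 then 1 else 0 := by
    intro e
    rw [hy]
    by_cases h : σ e.1 = e.2
    · simp [h]
    · simp [h]
  have hl : ∀ u, ∑ v, ∑ k, y ((u, v), k) = 1 := by
    intro u
    simp [hk]
  have hr : ∀ v, ∑ u, ∑ k, y ((u, v), k) = 1 := by
    intro v
    simp only [hk]
    have : ∀ u, (σ u = v) ↔ (u = σ.symm v) := fun u => by rw [Equiv.eq_symm_apply]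
    simp [this]
  have hsum : ∀ (s : Fin n ⊕ Fin n) (a : ℝ), ∑ c : Col n K,
      (if inc s c.1 = true then a else 0) * y c = a := by
    intro s a
    rcases s with u | v
    · rw [sum_inl, hl, mul_one]
    · rw [sum_inr, hr, mul_one]
  refine ⟨y, ?_⟩
  rintro (c | ⟨c, l⟩ | s | s)
  · have e1 : ∑ c', Sys n K (Sum.inl c) c' * y c' = y c := by simp [Sys]
    rw [e1]
    refine (h0 c).trans ?_
    rw [hy]
    dsimp only
    split_ifs <;> norm_num
  · have e1 : ∑ c', Sys n K (Sum.inr (Sum.inl (c, l))) c' * y c' = - y c := by simp [Sys]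
    rw [e1, hy]
    dsimp only
    by_cases h : σ c.1.1 = c.1.2 ∧ c.2 = κ c.1
    · rw [if_pos h]
      have := h4 c.1 h.1 l
      rw [← h.2] at this
      exact this
    · rw [if_neg h, neg_zero]
      exact h3 c l
  · have e1 : ∑ c', Sys n K (Sum.inr (Sum.inr (Sum.inl s))) c' * y c' = 1 := hsum s 1
    rw [e1]
    exact h1 s
  · have e1 : ∑ c', Sys n K (Sum.inr (Sum.inr (Sum.inr s))) c' * y c' = -1 := hsum s (-1)
    rw [e1]
    exact h2 s

section instances

variable [NeZero K]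

open Classical in
/-- the right-hand side for a set of deleted edges -/
noncomputable def rhsD (t : Fin n × Fin n → Fin K) (Z : Set (Fin n × Fin n)) : Row n K → ℝ :=
  Sum.elim (fun _ => 0) (Sum.elim
    (fun q => if q.1.2 ≠ 0 ∨ (q.2 = t q.1.1 ∧ q.1.1 ∈ Z) then 0 else -1)
    (Sum.elim (fun _ => 1) (fun _ => -1)))

open Classical in
/-- the right-hand side for a set of present edges -/
noncomputable def rhsP (t : Fin n × Fin n → Fin K) (P : Set (Fin n × Fin n)) : Row n K → ℝ :=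
  Sum.elim (fun _ => 0) (Sum.elim
    (fun q => if q.2 = 0 ∧ ¬ (q.1.2 = t q.1.1 ∧ q.1.1 ∈ P) then 0 else -1)
    (Sum.elim (fun _ => 1) (fun _ => -1)))

lemma rhsD_values (t : Fin n × Fin n → Fin K) (Z : Set (Fin n × Fin n)) (r : Row n K) :
    rhsD t Z r = -1 ∨ rhsD t Z r = 0 ∨ rhsD t Z r = 1 := by
  unfold rhsD
  rcases r with q | q | q | q <;> simp only [Sum.elim_inl, Sum.elim_inr]
  · simp
  · split_ifs <;> simp
  · simp
  · simp

lemma rhsP_values (t : Fin n × Fin n → Fin K) (Z : Set (Fin n × Fin n)) (r : Row n K) :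
    rhsP t Z r = -1 ∨ rhsP t Z r = 0 ∨ rhsP t Z r = 1 := by
  unfold rhsP
  rcases r with q | q | q | q <;> simp only [Sum.elim_inl, Sum.elim_inr]
  · simp
  · split_ifs <;> simp
  · simp
  · simp

lemma rhsD_perm (t : Fin n × Fin n → Fin K) (σ : Equiv.Perm (Fin n)) :
    Fs (rhsD t {e | σ e.1 ≠ e.2}) := by
  classical
  refine fs_of_perm σ (fun _ => 0) (fun c => ?_) (fun s => ?_) (fun s => ?_) (fun c l => ?_)
    (fun e he l => ?_)
  · simp [rhsD]
  · simp [rhsD]
  · simp [rhsD]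
  · simp only [rhsD, Sum.elim_inr, Sum.elim_inl]
    split_ifs <;> norm_num
  · simp only [rhsD, Sum.elim_inr, Sum.elim_inl]
    rw [if_neg]
    rintro (h | ⟨-, h⟩)
    · exact h rfl
    · exact h he

lemma rhsD_cover (t : Fin n × Fin n → Fin K) (W : Finset (Fin n ⊕ Fin n)) (hW : W.card < n) :
    ¬ Fs (rhsD t {e | Sum.inl e.1 ∉ W ∧ Sum.inr e.2 ∉ W}) := by
  classical
  intro h
  have h1 := bf_of_fs (b := rhsD t {e | Sum.inl e.1 ∉ W ∧ Sum.inr e.2 ∉ W})
    (fun c => by simp [rhsD]) (fun s => by simp [rhsD]) (fun s => by simp [rhsD]) h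
  refine BF_cover W hW ?_
  obtain ⟨y, a0, a1, a2, a3, a4⟩ := h1
  refine ⟨y, a0, fun e he => a1 e ?_, a2, a3, a4⟩
  intro k
  refine ⟨t e, ?_⟩
  simp only [rhsD, Sum.elim_inr, Sum.elim_inl]
  rw [if_pos (Or.inr ⟨trivial, he⟩)]

lemma rhsP_perm (t : Fin n × Fin n → Fin K) (σ : Equiv.Perm (Fin n)) :
    Fs (rhsP t {e | σ e.1 = e.2}) := by
  classical
  refine fs_of_perm σ t (fun c => ?_) (fun s => ?_) (fun s => ?_) (fun c l => ?_)
    (fun e he l => ?_)
  · simp [rhsP]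
  · simp [rhsP]
  · simp [rhsP]
  · simp only [rhsP, Sum.elim_inr, Sum.elim_inl]
    split_ifs <;> norm_num
  · simp only [rhsP, Sum.elim_inr, Sum.elim_inl]
    rw [if_neg]
    rintro ⟨-, h⟩
    exact h ⟨trivial, he⟩

lemma rhsP_cover (t : Fin n × Fin n → Fin K) (W : Finset (Fin n ⊕ Fin n)) (hW : W.card < n) :
    ¬ Fs (rhsP t {e | Sum.inl e.1 ∈ W ∨ Sum.inr e.2 ∈ W}) := by
  classical
  intro h
  have h1 := bf_of_fs (b := rhsP t {e | Sum.inl e.1 ∈ W ∨ Sum.inr e.2 ∈ W})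
    (fun c => by simp [rhsP]) (fun s => by simp [rhsP]) (fun s => by simp [rhsP]) h
  refine BF_cover W hW ?_
  obtain ⟨y, a0, a1, a2, a3, a4⟩ := h1
  refine ⟨y, a0, fun e he => a1 e ?_, a2, a3, a4⟩
  intro k
  refine ⟨0, ?_⟩
  simp only [rhsP, Sum.elim_inr, Sum.elim_inl]
  rw [if_pos]
  refine ⟨trivial, ?_⟩
  rintro ⟨-, h⟩
  rcases h with h | h
  · exact he.1 h
  · exact he.2 h

open Classical in
/-- the bits of the numbers: whether `b i ≥ 0`, and whether `b i ≥ 1` -/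
noncomputable def bitsGe {ι : Type} (b : ι → ℝ) : ι × Bool → Bool :=
  fun p => decide ((if p.2 = true then (1 : ℝ) else 0) ≤ b p.1)

/-- the complementary bits: whether `b i < 0`, and whether `b i < 1` -/
noncomputable def bitsLt {ι : Type} (b : ι → ℝ) : ι × Bool → Bool := fun p => !bitsGe b p

lemma bitsGe_iff {ι : Type} {b : ι → ℝ} {p : ι × Bool} :
    bitsGe b p = true ↔ (if p.2 = true then (1 : ℝ) else 0) ≤ b p.1 := by
  classical
  unfold bitsGe
  rw [decide_eq_true_iff]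

lemma bitsLt_iff {ι : Type} {b : ι → ℝ} {p : ι × Bool} :
    bitsLt b p = true ↔ ¬ (if p.2 = true then (1 : ℝ) else 0) ≤ b p.1 := by
  unfold bitsLt
  rw [← bitsGe_iff]
  simp

open Classical in
/-- membership bits -/
noncomputable def encS {α : Type} (Z : Set α) : α → Bool := fun e => decide (e ∈ Z)

lemma encS_true {α : Type} {Z : Set α} {e : α} : encS Z e = true ↔ e ∈ Z := by
  classical
  unfold encS
  rw [decide_eq_true_iff]

variable {m : ℕ} (ρ : Row n K ≃ Fin m)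

/-- the places of the bits, deleted edges -/
def slotD : (Fin n × Fin n) × Fin K ↪ Fin m × Bool :=
  ⟨fun p => (ρ (Sum.inr (Sum.inl ((p.1, 0), p.2))), false), by
    rintro ⟨e, l⟩ ⟨e', l'⟩ h
    have h1 := ρ.injective (Prod.mk.inj h).1
    simp only [Sum.inr.injEq, Sum.inl.injEq, Prod.mk.injEq] at h1
    obtain ⟨⟨h1, -⟩, h2⟩ := h1
    rw [h2]
    exact Prod.ext h1 rfl⟩

/-- the places of the bits, present edges -/
def slotP : (Fin n × Fin n) × Fin K ↪ Fin m × Bool :=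
  ⟨fun p => (ρ (Sum.inr (Sum.inl ((p.1, p.2), 0))), false), by
    rintro ⟨e, l⟩ ⟨e', l'⟩ h
    have h1 := ρ.injective (Prod.mk.inj h).1
    simp only [Sum.inr.injEq, Sum.inl.injEq, Prod.mk.injEq] at h1
    obtain ⟨⟨h1, h2⟩, -⟩ := h1
    rw [h2]
    exact Prod.ext h1 rfl⟩

lemma host_D (t : Fin n × Fin n → Fin K) (Z : Set (Fin n × Fin n)) :
    host (slotD ρ) (bitsGe (rhsD (fun _ => (0 : Fin K)) ∅ ∘ ρ.symm)) t (encS Z) =
      bitsGe (rhsD t Z ∘ ρ.symm) := by
  classical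
  funext p
  rw [Bool.eq_iff_iff, host_true, bitsGe_iff, bitsGe_iff]
  obtain ⟨i, c⟩ := p
  obtain ⟨r, rfl⟩ := ρ.surjective i
  have hs : (∃ x, encS Z x = true ∧ slotD ρ (x, t x) = (ρ r, c)) ↔
      c = false ∧ ∃ x ∈ Z, r = Sum.inr (Sum.inl ((x, 0), t x)) := by
    constructor
    · rintro ⟨x, h1, h2⟩
      have h3 := ρ.injective (Prod.mk.inj h2).1
      exact ⟨(Prod.mk.inj h2).2.symm, x, encS_true.mp h1, h3.symm⟩
    · rintro ⟨rfl, x, h1, rfl⟩
      exact ⟨x, encS_true.mpr h1, rfl⟩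
  rw [hs]
  simp only [Function.comp_apply, Equiv.symm_apply_apply]
  rcases r with q | ⟨q, l⟩ | q | q
  · simp [rhsD]
  · simp only [rhsD, Sum.elim_inr, Sum.elim_inl, Set.mem_empty_iff_false, and_false, or_false,
      Sum.inr.injEq, Sum.inl.injEq]
    cases c
    · simp only [Bool.false_eq_true, if_false, true_and]
      by_cases h0 : q.2 = 0
      · have e1 : ¬ (0 : ℝ) ≤ if q.2 ≠ 0 then 0 else -1 := by
          rw [if_neg (not_not.mpr h0)]
          norm_num
        have e2 : (∃ x ∈ Z, (q, l) = ((x, 0), t x)) ↔ (l = t q.1 ∧ q.1 ∈ Z) := by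
          constructor
          · rintro ⟨x, hx, h⟩
            rw [Prod.mk.injEq] at h
            rw [h.1, h.2]
            exact ⟨rfl, hx⟩
          · rintro ⟨h1, h2⟩
            exact ⟨q.1, h2, by rw [h1, ← h0]⟩
        rw [e2]
        by_cases h1 : l = t q.1 ∧ q.1 ∈ Z
        · rw [if_pos (Or.inr h1)]
          simp [h1]
        · rw [if_neg (show ¬ (q.2 ≠ 0 ∨ (l = t q.1 ∧ q.1 ∈ Z)) by
            rintro (h | h)
            · exact h h0
            · exact h1 h)]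
          constructor
          · rintro (h | h)
            · exact absurd h e1
            · exact absurd h h1
          · intro h
            norm_num at h
      · simp [h0]
    · simp only [if_true]
      constructor
      · rintro (h | h)
        · split_ifs at h <;> norm_num at h
        · exact absurd h.1 (by simp)
      · intro h
        split_ifs at h <;> norm_num at h
  · simp [rhsD]
  · simp [rhsD]

lemma host_P (t : Fin n × Fin n → Fin K) (Z : Set (Fin n × Fin n)) :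
    host (slotP ρ) (bitsLt (rhsP (fun _ => (0 : Fin K)) ∅ ∘ ρ.symm)) t (encS Z) =
      bitsLt (rhsP t Z ∘ ρ.symm) := by
  classical
  funext p
  rw [Bool.eq_iff_iff, host_true, bitsLt_iff, bitsLt_iff]
  obtain ⟨i, c⟩ := p
  obtain ⟨r, rfl⟩ := ρ.surjective i
  have hs : (∃ x, encS Z x = true ∧ slotP ρ (x, t x) = (ρ r, c)) ↔
      c = false ∧ ∃ x ∈ Z, r = Sum.inr (Sum.inl ((x, t x), 0)) := by
    constructor
    · rintro ⟨x, h1, h2⟩
      have h3 := ρ.injective (Prod.mk.inj h2).1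
      exact ⟨(Prod.mk.inj h2).2.symm, x, encS_true.mp h1, h3.symm⟩
    · rintro ⟨rfl, x, h1, rfl⟩
      exact ⟨x, encS_true.mpr h1, rfl⟩
  rw [hs]
  simp only [Function.comp_apply, Equiv.symm_apply_apply]
  rcases r with q | ⟨q, l⟩ | q | q
  · simp [rhsP]
  · simp only [rhsP, Sum.elim_inr, Sum.elim_inl, Set.mem_empty_iff_false, and_false, not_false_iff,
      and_true, Sum.inr.injEq, Sum.inl.injEq]
    cases c
    · simp only [Bool.false_eq_true, if_false, true_and]
      by_cases h0 : l = 0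
      · have e2 : (∃ x ∈ Z, (q, l) = ((x, t x), 0)) ↔ (q.2 = t q.1 ∧ q.1 ∈ Z) := by
          constructor
          · rintro ⟨x, hx, h⟩
            rw [Prod.mk.injEq] at h
            rw [h.1]
            exact ⟨rfl, hx⟩
          · rintro ⟨h1, h2⟩
            exact ⟨q.1, h2, by rw [← h1, h0]⟩
        rw [e2]
        by_cases h1 : q.2 = t q.1 ∧ q.1 ∈ Z
        · rw [if_neg (show ¬ (l = 0 ∧ ¬ (q.2 = t q.1 ∧ q.1 ∈ Z)) from fun h => h.2 h1)]
          simp [h0, h1]
        · rw [if_pos (⟨h0, h1⟩ : l = 0 ∧ ¬ (q.2 = t q.1 ∧ q.1 ∈ Z))]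
          simp [h0, h1]
      · simp [h0]
    · simp only [if_true]
      constructor
      · intro _
        split_ifs <;> norm_num
      · intro _
        left
        split_ifs <;> norm_num
  · simp [rhsP]
  · simp [rhsP]

end instances

end Pool.Agent.Q226.LPF
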