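import Pool.Agent.Q226.LPF.Conv
import Pool.Agent.Q226.LPF.Sys

/-! Linear feasibility and circuits with unreliable negations. -/

set_option autoImplicit false

open Finset Filter

namespace Pool.Agent.Q226.LPF

open Pool.Agent.H560R2 Pool.Agent.Y630.TF Pool.Agent.Q226.FLT

/-- averaging -/
lemma avg {Ω P S : Type} [Fintype Ω] [Fintype P] [Fintype S] [Nonempty Ω] [Nonempty P]
    [Nonempty S] (A : Ω → P → Prop) (B : Ω → S → Prop) [∀ ω, DecidablePred (A ω)]
    [∀ ω, DecidablePred (B ω)] [∀ p, DecidablePred fun ω => A ω p]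
    [∀ s, DecidablePred fun ω => B ω s] {A0 B0 c : ℝ} (hc : 0 < c)
    (h : ∀ ω, ((univ.filter fun p => A ω p).card * Fintype.card S * (2 * c) : ℝ) ≤
      (univ.filter fun s => B ω s).card * Fintype.card P * (2 * c) +
        Fintype.card P * Fintype.card S)
    (hA : ∀ p, A0 * Fintype.card Ω ≤ ((univ.filter fun ω => A ω p).card : ℝ))
    (hB : ∀ s, ((univ.filter fun ω => B ω s).card : ℝ) ≤ B0 * Fintype.card Ω) :
    (A0 - B0) * (2 * c) ≤ 1 := by
  classical
  have hΩ : (0 : ℝ) < Fintype.card Ω := by exact_mod_cast Fintype.card_pos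
  have hP : (0 : ℝ) < Fintype.card P := by exact_mod_cast Fintype.card_pos
  have hS : (0 : ℝ) < Fintype.card S := by exact_mod_cast Fintype.card_pos
  have e1 : ∑ ω, ((univ.filter fun p => A ω p).card : ℝ) =
      ∑ p, ((univ.filter fun ω => A ω p).card : ℝ) := by
    simp only [Finset.card_filter, Nat.cast_sum]
    rw [Finset.sum_comm]
  have e2 : ∑ ω, ((univ.filter fun s => B ω s).card : ℝ) =
      ∑ s, ((univ.filter fun ω => B ω s).card : ℝ) := by
    simp only [Finset.card_filter, Nat.cast_sum]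
    rw [Finset.sum_comm]
  have h1 := Finset.sum_le_sum fun ω (_ : ω ∈ (univ : Finset Ω)) => h ω
  rw [Finset.sum_add_distrib, Finset.sum_const, Finset.card_univ, nsmul_eq_mul] at h1
  simp only [← Finset.sum_mul] at h1
  rw [e1, e2] at h1
  have h2 : (Fintype.card P : ℝ) * (A0 * Fintype.card Ω) ≤
      ∑ p, ((univ.filter fun ω => A ω p).card : ℝ) := by
    calc (Fintype.card P : ℝ) * (A0 * Fintype.card Ω) = ∑ _p : P, A0 * Fintype.card Ω := by
          rw [Finset.sum_const, Finset.card_univ, nsmul_eq_mul]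
      _ ≤ _ := Finset.sum_le_sum fun p _ => hA p
  have h3 : ∑ s, ((univ.filter fun ω => B ω s).card : ℝ) ≤
      (Fintype.card S : ℝ) * (B0 * Fintype.card Ω) := by
    calc _ ≤ ∑ _s : S, B0 * Fintype.card Ω := Finset.sum_le_sum fun s _ => hB s
      _ = _ := by rw [Finset.sum_const, Finset.card_univ, nsmul_eq_mul]
  have h4 : (Fintype.card P : ℝ) * (A0 * Fintype.card Ω) * Fintype.card S * (2 * c) ≤
      (Fintype.card S : ℝ) * (B0 * Fintype.card Ω) * Fintype.card P * (2 * c) +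
        Fintype.card Ω * (Fintype.card P * Fintype.card S) := by
    refine le_trans ?_ (h1.trans ?_)
    · exact mul_le_mul_of_nonneg_right (mul_le_mul_of_nonneg_right h2 hS.le) (by positivity)
    · refine add_le_add (mul_le_mul_of_nonneg_right (mul_le_mul_of_nonneg_right h3 hP.le)
        (by positivity)) le_rfl
  have h5 : ((A0 - B0) * (2 * c)) * (Fintype.card Ω * Fintype.card P * Fintype.card S) ≤
      1 * (Fintype.card Ω * Fintype.card P * Fintype.card S : ℝ) := by nlinarith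
  exact le_of_mul_le_mul_right h5 (by positivity)

/-- solvability of a system of linear inequalities -/
def Solvable {m N : ℕ} (A : Matrix (Fin m) (Fin N) ℝ) (b : Fin m → ℝ) : Prop :=
  ∃ x : Fin N → ℝ, ∀ i, b i ≤ ∑ j, A i j * x j

/-- all entries are `-1`, `0` or `1` -/
def Small {m : ℕ} (b : Fin m → ℝ) : Prop := ∀ i, b i = -1 ∨ b i = 0 ∨ b i = 1

/-- Every finite nonempty family of circuits on literals with nondecreasing real gates of fan-in
two (one circuit is chosen at random), for which there are `q` and `δ ≥ δ₀` such that the vectors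
`b` with entries `-1, 0, 1` which are not in the set `Good` are accepted with probability at most
`q` without faults, and those in `Good` with probability at least `q + δ` if each negated literal
is stuck at `0` with probability `1 / D`, has a member with at least `S` gates. The circuits read
the bits `bits b`. -/
def Hard {m : ℕ} (bits : (Fin m → ℝ) → Fin m × Bool → Bool) (Good : (Fin m → ℝ) → Prop)
    (D : ℕ) (δ₀ S : ℝ) : Prop :=
  ∀ (Ω : Type) [Finite Ω] [Nonempty Ω] (l : Ω → List (((Fin m × Bool) × Bool → Bool) → ℝ))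
    (out : Ω → ((Fin m × Bool) × Bool → Bool) → ℝ) (θ : Ω → ℝ) (q δ : ℝ),
    (∀ ω, H630VC.Prog (litInputs (Fin m × Bool)) (l ω)) → (∀ ω, out ω ∈ l ω) → δ₀ ≤ δ →
    (∀ b, Small b → ¬ Good b → acceptance out θ (bits b) ≤ q) →
    (∀ b, Small b → Good b → q + δ ≤ faultyAcceptance out θ D (bits b)) →
    ∃ ω, S ≤ (l ω).length

section transport

variable {n K m N : ℕ} (ρ : Row n K ≃ Fin m) (κ : Col n K ≃ Fin N)

/-- the matrix -/
def mat : Matrix (Fin m) (Fin N) ℝ := (Sys n K).submatrix ρ.symm κ.symm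

lemma solvable_iff (b : Row n K → ℝ) : Solvable (mat ρ κ) (b ∘ ρ.symm) ↔ Fs b := by
  have key : ∀ (r : Row n K) (x : Fin N → ℝ), ∑ j, mat ρ κ (ρ r) j * x j =
      ∑ c, Sys n K r c * x (κ c) := by
    intro r x
    unfold mat
    simp only [Matrix.submatrix_apply, Equiv.symm_apply_apply]
    rw [← Equiv.sum_comp κ]
    simp
  constructor
  · rintro ⟨x, hx⟩
    refine ⟨fun c => x (κ c), fun r => ?_⟩
    have := hx (ρ r)
    rw [key] at this
    simpa using this
  · rintro ⟨y, hy⟩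
    refine ⟨fun j => y (κ.symm j), fun i => ?_⟩
    obtain ⟨r, rfl⟩ := ρ.surjective i
    rw [key]
    simpa using hy r

end transport

section core

variable {n K m N : ℕ} [NeZero K] (ρ : Row n K ≃ Fin m) (κ : Col n K ≃ Fin N)

lemma encS_prog (e : Fin n × Fin n) : (fun Z : Set (Fin n × Fin n) =>
    if encS Z e = true then (1 : ℝ) else 0) ∈ setInputs (Fin n × Fin n) := by
  classical
  refine Or.inl ⟨e, ?_⟩
  funext Z
  by_cases h : e ∈ Z
  · rw [if_pos h, if_pos (encS_true.mpr h)]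
  · rw [if_neg h, if_neg (fun h' => h (encS_true.mp h'))]

/-- circuits which accept the infeasible systems -/
theorem core_D (w lam c D : ℕ) (hw : 1 ≤ w) (hc : 1 ≤ c) (hn : n < 2 ^ lam)
    (hbig : 2 ^ 59 * (lam + 1) ^ 8 * w ^ 8 * c ≤ n) (hD : 1 ≤ D) {δ₀ S : ℝ} (hδ₀ : 0 < δ₀)
    (hδc : 1 < δ₀ * c)
    (hbad : (Fintype.card (Fin n × Fin n) : ℝ) * (1 - 1 / (D : ℝ)) ^ K ≤ δ₀ / 2 / 2)
    (hS : 8 * c * S ≤ 2 ^ w) :
    Hard (m := m) bitsGe (fun b => ¬ Solvable (mat ρ κ) b) D δ₀ S := by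
  classical
  intro Ω _ _ l out θ q δ hl hout hδ hno hyes
  let _ : Fintype Ω := Fintype.ofFinite Ω
  by_contra hcon
  push Not at hcon
  obtain ⟨l', out', g1, g2, g3, g4, g5⟩ := gen (I := Set (Fin n × Fin n)) (setInputs _)
    (fun Z => encS Z) encS_prog (fun c => Or.inr ⟨c, rfl⟩) (slotD ρ)
    (bitsGe (rhsD (fun _ => (0 : Fin K)) ∅ ∘ ρ.symm)) hD (A0 := q + δ - δ / 2) (η := δ / 2)
    (B0 := q) (by linarith) (hbad.trans (by linarith))
    (fun Z => ∀ t : Fin n × Fin n → Fin K, ¬ Fs (rhsD t Z))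
    (fun Z => ∀ t : Fin n × Fin n → Fin K, Fs (rhsD t Z)) l out θ hl hout
    (fun Z hZ t => by
      rw [host_D]
      have := hyes (rhsD t Z ∘ ρ.symm) (fun i => rhsD_values t Z _)
        ((solvable_iff ρ κ _).not.mpr (hZ t))
      linarith)
    (fun Z hZ t => by
      rw [host_D]
      exact hno (rhsD t Z ∘ ρ.symm) (fun i => rhsD_values t Z _)
        (not_not.mpr ((solvable_iff ρ κ _).mpr (hZ t))))
  obtain ⟨Pt, i1, i2, W, hW, H⟩ := match_both (n := n) w lam c hw hc hn hbig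
  have hcR : (0 : ℝ) < c := by exact_mod_cast hc
  have h1 := avg (Ω := Ω × (Fin n × Fin n → Fin K)) (P := Pt) (S := Equiv.Perm (Fin n))
    (fun ω p => θ ω.1 ≤ out' ω {e | Sum.inl e.1 ∉ W p ∧ Sum.inr e.2 ∉ W p})
    (fun ω σ => θ ω.1 ≤ out' ω {e | σ e.1 ≠ e.2}) (A0 := q + δ - δ / 2) (B0 := q) (c := c) hcR
    (fun ω => (H (l' ω) (g1 ω) (by
      have h2 : ((8 * c * (l' ω).length : ℕ) : ℝ) ≤ ((2 ^ w : ℕ) : ℝ) := by
        push_cast
        refine le_trans ?_ hS
        rw [g2 ω]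
        exact mul_le_mul_of_nonneg_left (hcon ω.1).le (by positivity)
      exact_mod_cast h2) _ (g3 ω) (θ ω.1)).2)
    (fun p => g4 _ fun t => rhsD_cover t (W p) (hW p))
    (fun σ => g5 _ fun t => rhsD_perm t σ)
  have h2 : δ₀ * c ≤ δ * c := mul_le_mul_of_nonneg_right hδ hcR.le
  nlinarith

/-- circuits which accept the feasible systems -/
theorem core_P (w lam c D : ℕ) (hw : 1 ≤ w) (hc : 1 ≤ c) (hn : n < 2 ^ lam)
    (hbig : 2 ^ 59 * (lam + 1) ^ 8 * w ^ 8 * c ≤ n) (hD : 1 ≤ D) {δ₀ S : ℝ} (hδ₀ : 0 < δ₀)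
    (hδc : 1 < δ₀ * c)
    (hbad : (Fintype.card (Fin n × Fin n) : ℝ) * (1 - 1 / (D : ℝ)) ^ K ≤ δ₀ / 2 / 2)
    (hS : 8 * c * S ≤ 2 ^ w) :
    Hard (m := m) bitsLt (fun b => Solvable (mat ρ κ) b) D δ₀ S := by
  classical
  intro Ω _ _ l out θ q δ hl hout hδ hno hyes
  let _ : Fintype Ω := Fintype.ofFinite Ω
  by_contra hcon
  push Not at hcon
  obtain ⟨l', out', g1, g2, g3, g4, g5⟩ := gen (I := Set (Fin n × Fin n)) (setInputs _)
    (fun Z => encS Z) encS_prog (fun c => Or.inr ⟨c, rfl⟩) (slotP ρ)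
    (bitsLt (rhsP (fun _ => (0 : Fin K)) ∅ ∘ ρ.symm)) hD (A0 := q + δ - δ / 2) (η := δ / 2)
    (B0 := q) (by linarith) (hbad.trans (by linarith))
    (fun Z => ∀ t : Fin n × Fin n → Fin K, Fs (rhsP t Z))
    (fun Z => ∀ t : Fin n × Fin n → Fin K, ¬ Fs (rhsP t Z)) l out θ hl hout
    (fun Z hZ t => by
      rw [host_P]
      have := hyes (rhsP t Z ∘ ρ.symm) (fun i => rhsP_values t Z _)
        ((solvable_iff ρ κ _).mpr (hZ t))
      linarith)
    (fun Z hZ t => by
      rw [host_P]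
      exact hno (rhsP t Z ∘ ρ.symm) (fun i => rhsP_values t Z _)
        ((solvable_iff ρ κ _).not.mpr (hZ t)))
  obtain ⟨Pt, i1, i2, W, hW, H⟩ := match_both (n := n) w lam c hw hc hn hbig
  have hcR : (0 : ℝ) < c := by exact_mod_cast hc
  have h1 := avg (Ω := Ω × (Fin n × Fin n → Fin K)) (P := Equiv.Perm (Fin n)) (S := Pt)
    (fun ω σ => θ ω.1 ≤ out' ω {e | σ e.1 = e.2})
    (fun ω p => θ ω.1 ≤ out' ω {e | Sum.inl e.1 ∈ W p ∨ Sum.inr e.2 ∈ W p})
    (A0 := q + δ - δ / 2) (B0 := q) (c := c) hcR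
    (fun ω => by
      have := (H (l' ω) (g1 ω) (by
        have h2 : ((8 * c * (l' ω).length : ℕ) : ℝ) ≤ ((2 ^ w : ℕ) : ℝ) := by
          push_cast
          refine le_trans ?_ hS
          rw [g2 ω]
          exact mul_le_mul_of_nonneg_left (hcon ω.1).le (by positivity)
        exact_mod_cast h2) _ (g3 ω) (θ ω.1)).1
      rw [mul_comm (Fintype.card (Equiv.Perm (Fin n)) : ℝ) (Fintype.card Pt : ℝ)]
      exact this)
    (fun σ => g4 _ fun t => rhsP_perm t σ)
    (fun p => g5 _ fun t => rhsP_cover t (W p) (hW p))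
  have h2 : δ₀ * c ≤ δ * c := mul_le_mul_of_nonneg_right hδ hcR.le
  nlinarith

end core

end Pool.Agent.Q226.LPF
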